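import Mathlib
import Pool.Agent.Helper12.BX.Play0

/-!
# The new point of the family and its code (section 5.2 of the write-up)
-/

set_option autoImplicit false

namespace Pool.Agent.Helper12.BX

open Relation

/-! ### The code -/

theorem findGreatest_gap_congr {u y : PF} {n n' κ : ℕ}
    (h : ∀ t, t < κ → (IsGap u n t ↔ IsGap y n' t)) (k : ℕ) (hk : k < κ) :
    @Nat.findGreatest (IsGap y n') (fun _ => Classical.propDecidable _) k =
      @Nat.findGreatest (IsGap u n) (fun _ => Classical.propDecidable _) k := by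
  classical
  induction k with
  | zero => simp
  | succ k ih =>
    rw [Nat.findGreatest_succ, Nat.findGreatest_succ, ih (by omega)]
    by_cases h1 : IsGap u n (k + 1)
    · rw [if_pos h1, if_pos ((h _ hk).1 h1)]
    · rw [if_neg h1, if_neg (fun h2 => h1 ((h _ hk).2 h2))]

theorem pg_congr {u y : PF} {n n' κ : ℕ}
    (h : ∀ t, t < κ → (IsGap u n t ↔ IsGap y n' t)) (t : ℕ) (ht : t < κ) :
    pg y n' t = pg u n t := by
  unfold pg
  exact findGreatest_gap_congr h (t - 1) (by omega)

theorem pg_le (y : PF) (n t : ℕ) : pg y n t ≤ t - 1 := by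
  classical
  unfold pg
  exact Nat.findGreatest_le _

theorem xvCongr : XvCongr := by
  classical
  intro u y n n' κ hg hu t ht
  by_cases h0 : t = 0
  · subst h0
    unfold xv
    rw [if_pos rfl, if_pos rfl]
  by_cases h1 : IsGap u n t
  · have h2 := (hg t ht).1 h1
    have h3 := pg_congr hg t ht
    have h4 := pg_le u n t
    have h5 : u (pg u n t) = y (pg u n t) := by
      rcases hu (pg u n t) (by omega) with h | ⟨_, h⟩
      · exact h
      · exact absurd h1 (h t (by omega) ht)
    unfold xv
    rw [if_neg h0, if_neg h0, if_pos h1, if_pos h2, h3, h5]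
  · have h2 : ¬ IsGap y n' t := fun h => h1 ((hg t ht).2 h)
    have h3 : u t = y t := by
      rcases hu t ht with h | ⟨h, _⟩
      · exact h
      · exact absurd h h1
    unfold xv
    rw [if_neg h0, if_neg h0, if_neg h1, if_neg h2, h3]

/-! ### The new point -/

theorem Fus.strictMono {g : PF → ℕ → ℕ} (F : Fus g) : StrictMono fun k => (P F.u k).1 :=
  strictMono_nat_of_lt_succ F.inc

theorem Fus.dom {g : PF → ℕ → ℕ} (F : Fus g) (k : ℕ) : F.u (P F.u k).1 ≠ none := by
  intro h1
  have h2 := F.inc k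
  rw [P_succ, stp_none h1] at h2
  exact lt_irrefl _ h2

theorem Fus.P_next {g : PF → ℕ → ℕ} (F : Fus g) (j : ℕ) :
    P F.u (F.n j + 1) = (dC (F.b j), (F.q j).a) := by
  rw [P_succ, F.Pn j, stp_some (F.ua j)]
  simp [nxt]

theorem playF {g : PF → ℕ → ℕ} (F : Fus g) : PlayF F := by
  intro B y I i hI hB hy hya hB0 hM hR
  have hmono := F.strictMono
  have hPi : (P F.u (F.n i)).1 = (F.q i).a := by rw [F.Pn i]
  have hlt : ∀ k, k < F.n i → (P F.u k).1 < (F.q i).a := by
    intro k hk
    rw [← hPi]
    exact hmono hk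
  have huy : ∀ d v, d ≠ (F.q i).a → F.u d = some v → y d = some v :=
    fun d v hd hv => hy d v hd (hB d v hv)
  have hPy : ∀ k, k ≤ F.n i → P y k = P F.u k := by
    intro k hk
    refine wk_congr fun l hl => ?_
    have h1 : (P F.u l).1 ≠ (F.q i).a := (hlt l (by omega)).ne
    obtain ⟨v, hv⟩ := Option.ne_none_iff_exists'.1 (F.dom l)
    have hv' : F.u (wk F.u (1, 0) l).1 = some v := hv
    rw [hv']
    exact huy _ v h1 hv'
  have hPyi : (P y (F.n i)).1 = (F.q i).a := by rw [hPy _ le_rfl, hPi]
  have ha0 : 0 ≠ (F.q i).a := by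
    have h1 := hlt 0 (F.n_pos i)
    omega
  have hMki : Mk y (F.q i).a := (hM _).2 (Or.inl rfl)
  have hnj : ∀ j, j ∈ I → F.n j < F.n i := by
    intro j hj
    have h1 : (F.q j).a < (F.q i).a := F.a_mono (hI j hj).1
    rw [← hPi, ← show (P F.u (F.n j)).1 = (F.q j).a by rw [F.Pn j]] at h1
    exact hmono.lt_iff_lt.1 h1
  refine ⟨⟨?_, F.n_pos i, ?_, ?_, ?_, ?_, ?_⟩, hPy, ?_⟩
  · obtain ⟨v, hv⟩ := Option.ne_none_iff_exists'.1 hB0
    rw [hy 0 v ha0 hv]
    simp
  · intro k hk
    rw [hPy k hk.le, hPy (k + 1) hk]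
    exact F.inc k
  · rw [hPyi]; exact hya
  · rw [hPyi]; exact hMki
  · -- the condition at a gap
    intro k vm b hk hmk hvm hb
    rw [hPy (k + 1) hk.le] at hmk hb
    rw [hPy k (by omega)] at hvm
    rw [hPyi, hPy (k + 1) hk.le, hPy (k + 2) (by omega)]
    have hek : (P F.u (k + 1)).1 < (F.q i).a := hlt _ hk
    obtain ⟨j, hj, hje⟩ : ∃ j ∈ I, (P F.u (k + 1)).1 = (F.q j).a := by
      rcases (hM _).1 hmk with h | h
      · omega
      · exact h
    obtain ⟨hji, hG⟩ := hI j hj
    have hkn : k + 1 = F.n j := by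
      have h1 : (P F.u (F.n j)).1 = (F.q j).a := by rw [F.Pn j]
      rw [← h1] at hje
      exact hmono.injective hje
    have hja : (F.q j).a ≠ (F.q i).a := by omega
    have hb' : b = F.b j := by
      have h1 := huy _ _ hja (F.ua j)
      rw [hje, h1] at hb
      simpa using hb.symm
    have hvm' : dT vm = (F.q j).r := by
      obtain ⟨vm', h1, h2⟩ := F.root j
      rw [show F.n j - 1 = k by omega] at h1
      have h3 := huy _ _ (hlt k (by omega)).ne h1
      rw [h3] at hvm
      rw [← h2]
      simpa using congrArg (Option.map dT) hvm.symm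
    have hnx : P F.u (k + 2) = (dC (F.b j), (F.q j).a) := by
      rw [show k + 2 = F.n j + 1 by omega]
      exact F.P_next j
    rw [hje, hb', hvm', hnx]
    obtain ⟨w, hwB, hwa, hwR, hwT⟩ := hG.ex
    have hwy : ∀ d v, d ≠ (F.q i).a → w d = some v → y d = some v :=
      fun d v hd hv => hy d v hd (hwB d v hv)
    refine ⟨?_, ?_, ?_, ?_⟩
    · intro m _ hme
      obtain ⟨m', _, h1⟩ := exists_wk_eq hwR hwy hya m
      rw [h1] at hme
      exact hwR m' (by rw [hme]; exact hwa)
    · intro m _ hm
      exact hwR.intact hwy hya m hm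
    · intro m v _ hL
      obtain ⟨m', _, h1⟩ := exists_wk_eq hwR hwy hya m
      obtain ⟨h2, h3, h4⟩ := hL
      rw [h1] at h2 h3
      have hL' : Lists w (F.q j).r m' v := by
        refine ⟨?_, h3, h4⟩
        obtain ⟨v', hv'⟩ := Option.ne_none_iff_exists'.1 (hwR m')
        have hne : (wk w ((F.q j).r, 0) m').1 ≠ (F.q i).a := by
          intro h5
          rw [h5, hya] at h2
          cases h2
        have h6 := hwy _ _ hne hv'
        rw [h2] at h6
        rw [hv', h6]
      exact (hwT m' v hL').intact hwy hya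
    · obtain ⟨m, hmb, hm1, hm2⟩ := F.idx j
      obtain ⟨v, hv1, hv2, hv3⟩ := hG.ρ
      have hqa : (F.q j).p (F.q i).a = none := by
        rcases h1 : (F.q j).p (F.q i).a with _ | v'
        · rfl
        · have h2 := F.q_ext j i hji.le _ _ h1
          rw [(F.q i).pa] at h2
          cases h2
      have hwk : wk y ((F.q j).r, 0) m = ((F.q j).ρ, (F.q j).τ) := by
        rw [← hm1]
        refine wk_congr fun l hl => ?_
        obtain ⟨v', hv'⟩ := Option.ne_none_iff_exists'.1 (hm2 l hl)
        have hne : (wk (F.q j).p ((F.q j).r, 0) l).1 ≠ (F.q i).a := by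
          intro h5
          rw [h5, hqa] at hv'
          cases hv'
        rw [hv']
        exact huy _ _ hne (F.q_ext_u j _ _ hv')
      have hρa : (F.q j).ρ ≠ (F.q i).a := by
        intro h5
        have h6 := F.u_ρ j
        rw [h5, F.ua i] at h6
        cases h6
      refine ⟨m, v, hmb, ⟨?_, ?_, ?_⟩, ?_⟩
      · rw [hwk]; exact hy _ _ hρa hv1
      · rw [hwk]; exact hv2.symm
      · rw [hv3]
        have h5 := hmono (Nat.lt_succ_self (F.n j))
        simp only at h5
        rw [show P F.u (F.n j).succ = _ from F.P_next j] at h5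
        simp only at h5
        omega
      · rw [hv3]
  · -- the registry of the end
    intro k vm hk hvm
    rw [hPyi]
    obtain ⟨vm', h1, h2⟩ := F.root i
    rw [show F.n i - 1 = k by omega] at h1
    rw [hPy k (by omega)] at hvm
    have h3 := huy _ _ (hlt k (by omega)).ne h1
    rw [h3] at hvm
    have h4 : dT vm = (F.q i).r := by
      rw [← h2]
      simpa using congrArg (Option.map dT) hvm.symm
    rw [h4]
    exact hR
  · -- the gaps
    intro t
    constructor
    · rintro (h | ⟨k, hk, h1, h2⟩)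
      · exact Or.inl h
      · right
        rw [h2]
        exact (hM _).1 h1
    · rintro (h | h | ⟨j, hj, h⟩)
      · exact Or.inl h
      · refine Or.inr ⟨F.n i - 1, ?_, ?_, ?_⟩
        · have := F.n_pos i; omega
        · rw [Nat.sub_add_cancel (F.n_pos i), hPyi]; exact hMki
        · rw [Nat.sub_add_cancel (F.n_pos i), hPyi]; exact h
      · have h1 := hnj j hj
        have h2 : (P y (F.n j)).1 = (F.q j).a := by rw [hPy _ h1.le, F.Pn j]
        refine Or.inr ⟨F.n j - 1, by omega, ?_, ?_⟩
        · rw [Nat.sub_add_cancel (F.n_pos j), h2]; exact (hM _).2 (Or.inr ⟨j, hj, rfl⟩)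
        · rw [Nat.sub_add_cancel (F.n_pos j), h2]; exact h

end Pool.Agent.Helper12.BX
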