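import Pool.Agent.Helper12.BX.Walk

/-!
# Closedness of the family (section 2 of the write-up)
-/

set_option autoImplicit false

namespace Pool.Agent.Helper12.BX

/-! ### Auxiliary lemmas -/

theorem P_eq_of_ext {v y : PF} (hy : Ext v y) {q : ℕ}
    (h : ∀ j, j < q → v (wk v (1, 0) j).1 ≠ none) {j : ℕ} (hj : j ≤ q) :
    P y j = wk v (1, 0) j :=
  wk_ext hy fun i hi => h i (lt_of_lt_of_le hi hj)

theorem isGap_end {y : PF} {n : ℕ} (h : IsF y n) : IsGap y n (P y n).1 := by
  have h1 : n - 1 + 1 = n := Nat.sub_add_cancel h.pos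
  refine Or.inr ⟨n - 1, by have := h.pos; omega, ?_, ?_⟩
  · rw [h1]; exact h.mark
  · rw [h1]

/-- The gap that follows the gap `s` shows the value of `y` at `s`. -/
theorem next_gap {y : PF} {n s e : ℕ} (hs : IsGap y n s) (he : IsGap y n e) (hse : s < e) :
    ∃ t, t ≤ e ∧ xv y n t = 2 * ((y s).getD 0) + 2 := by
  classical
  have hex : ∃ t, s < t ∧ IsGap y n t := ⟨e, hse, he⟩
  obtain ⟨h1, h2⟩ := Nat.find_spec hex
  have h3 : Nat.find hex ≤ e := Nat.find_min' hex ⟨hse, he⟩
  refine ⟨Nat.find hex, h3, ?_⟩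
  have h4 : pg y n (Nat.find hex) = s := by
    unfold pg
    rw [Nat.findGreatest_eq_iff]
    refine ⟨by omega, fun _ => hs, fun u hu1 hu2 hu3 => ?_⟩
    exact Nat.find_min hex (m := u) (by omega) ⟨hu1, hu3⟩
  unfold xv
  rw [if_neg (by omega), if_pos h2, h4]

/-- There is no gap `e < k` after a gap `s` that is new. -/
theorem no_gap {x : ℕ → ℕ} {v y : PF} {g : ℕ → ℕ} {n k s e : ℕ}
    (hk : ∀ t, t < k → xv y n t = x t) (hN : Near v g y) (hs : IsGap y n s) (hv : v s = none)
    (hys : y s ≠ none) (he : IsGap y n e) (hse : s < e) (hek : e < k)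
    (hg : ∀ t, t ≤ e → x t ≤ g s) : False := by
  obtain ⟨t, h2, h3⟩ := next_gap hs he hse
  obtain ⟨b, hb⟩ := Option.ne_none_iff_exists'.1 hys
  rw [hb, Option.getD_some] at h3
  have h4 := hk t (by omega)
  have h5 := hg t h2
  have h6 := hN.2 s b hv hb
  omega

/-- New coordinates below `k` are gaps. -/
theorem sharp {x : ℕ → ℕ} {v y : PF} {n k t : ℕ} (hk : ∀ t, t < k → xv y n t = x t)
    (hx : ∀ t c, x t = 2 * c + 1 → v t = some c) (ht : t < k) (hvt : v t = none)
    (hyt : y t ≠ none) : IsGap y n t := by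
  by_contra hng
  have h0 : t ≠ 0 := fun h => hng (Or.inl h)
  obtain ⟨w, hw⟩ := Option.ne_none_iff_exists'.1 hyt
  have h1 : xv y n t = 2 * w + 1 := by
    unfold xv
    rw [if_neg h0, if_neg hng, hw]
  rw [hk t ht] at h1
  rw [hx t w h1] at hvt
  cases hvt

theorem eq_some_of_xv {y : PF} {n t c : ℕ} (h : xv y n t = 2 * c + 1) : y t = some c := by
  unfold xv at h
  split_ifs at h with h3 h4
  · omega
  · omega
  · cases hyt : y t with
    | none => rw [hyt] at h; simp at h
    | some w =>
      rw [hyt] at h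
      simp only at h
      have : w = c := by omega
      rw [this]

/-- The facts about a near point whose main walk goes on after the end `a` of the main walk
of `v`. -/
theorem near_facts {x : ℕ → ℕ} {v y : PF} {g : ℕ → ℕ} {n k p vm : ℕ}
    (hx : ∀ t c, x t = 2 * c + 1 → v t = some c) (hF : IsF y n)
    (hk : ∀ t, t < k → xv y n t = x t) (hN : Near v g y) (hv0 : v 0 ≠ none)
    (hstop : v (wk v (1, 0) (p + 1)).1 = none)
    (hdom : ∀ j, j < p + 1 → v (wk v (1, 0) j).1 ≠ none)
    (hvm : v (wk v (1, 0) p).1 = some vm) (hlt : p + 1 < n)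
    (hak : (wk v (1, 0) (p + 1)).1 < k) :
    ∃ b, y (wk v (1, 0) (p + 1)).1 = some b ∧ g (wk v (1, 0) (p + 1)).1 ≤ b ∧
      GapOK y (wk v (1, 0) (p + 1)).1 (P y n).1 (dT vm) b (P y (p + 2)) ∧
      ∀ e, e < k → v e = none → e ≠ (wk v (1, 0) (p + 1)).1 →
        (∀ t, t ≤ e → x t ≤ g (wk v (1, 0) (p + 1)).1) → y e = none ∧ e ≠ (P y n).1 := by
  have hP : ∀ j, j ≤ p + 1 → P y j = wk v (1, 0) j := fun j hj => P_eq_of_ext hN.1 hdom hj
  have hya : y (wk v (1, 0) (p + 1)).1 ≠ none := by
    have h1 := hF.dom hlt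
    rwa [hP _ le_rfl] at h1
  obtain ⟨b, hb⟩ := Option.ne_none_iff_exists'.1 hya
  have hga : IsGap y n (wk v (1, 0) (p + 1)).1 := sharp hk hx hak hstop hya
  have hmk : Mk y (wk v (1, 0) (p + 1)).1 := by
    rcases hga with h | ⟨k', _, h1, h2⟩
    · exfalso
      rw [h] at hstop
      exact hv0 hstop
    · rw [h2]; exact h1
  refine ⟨b, hb, hN.2 _ _ hstop hb, ?_, ?_⟩
  · have h1 := hF.gap p vm b hlt (by rw [hP _ le_rfl]; exact hmk)
      (by rw [hP _ (Nat.le_succ p)]; exact hN.1 _ _ hvm) (by rw [hP _ le_rfl]; exact hb)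
    rwa [hP _ le_rfl] at h1
  · intro e hek hve hea hg
    by_contra hcon
    have hge : IsGap y n e := by
      by_cases hye : y e = none
      · have h1 : e = (P y n).1 := by
          by_contra h2
          exact hcon ⟨hye, h2⟩
        rw [h1]
        exact isGap_end hF
      · exact sharp hk hx hek hve hye
    have hlt' : (wk v (1, 0) (p + 1)).1 < e := by
      rcases hge with h | ⟨k', hk', _, h2⟩
      · exfalso
        rw [h] at hve
        exact hv0 hve
      · rcases lt_trichotomy (k' + 1) (p + 1) with h3 | h3 | h3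
        · exfalso
          rw [h2, hP _ h3.le] at hve
          exact hdom _ h3 hve
        · exfalso
          rw [h3, hP _ le_rfl] at h2
          exact hea h2
        · rw [h2, ← hP _ le_rfl]
          exact hF.lt h3 hk'
    exact no_gap hk hN hga hstop hya hge hlt' hek hg

theorem le_sum_range (x : ℕ → ℕ) {t e : ℕ} (h : t ≤ e) :
    x t ≤ ∑ i ∈ Finset.range (e + 1), x i :=
  Finset.single_le_sum (f := x) (fun _ _ => Nat.zero_le _) (Finset.mem_range.2 (by omega))

/-- The gap of the end is not crossed by near points. -/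
theorem near_stop (x : ℕ → ℕ) (v : PF) (hx : ∀ t c, x t = 2 * c + 1 → v t = some c)
    (hv0 : v 0 ≠ none) {q : ℕ} (hstop : v (wk v (1, 0) q).1 = none)
    (hdom : ∀ j, j < q → v (wk v (1, 0) j).1 ≠ none) :
    ∃ (k : ℕ) (g : ℕ → ℕ), ∀ y n, IsF y n → (∀ t, t < k → xv y n t = x t) → Near v g y →
      ¬ q < n := by
  classical
  rcases q with _ | p
  · refine ⟨2, fun _ => 0, fun y n hF hk hN hlt => ?_⟩
    have h1 : y 1 ≠ none := hF.dom hlt
    have h2 : IsGap y n 1 := sharp hk hx (by norm_num) hstop h1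
    rcases h2 with h2 | ⟨k', hk', _, h3⟩
    · omega
    · have h4 := hF.lt (Nat.succ_pos k') hk'
      rw [P_zero, ← h3] at h4
      exact lt_irrefl _ h4
  · obtain ⟨vm, hvm⟩ := Option.ne_none_iff_exists'.1 (hdom p (Nat.lt_succ_self p))
    by_cases hR : InfWalk v (dT vm, 0)
    · by_cases hT : ∃ m w q', Lists v (dT vm) m w ∧
          v (wk v (dT w, (wk v (1, 0) (p + 1)).1) q').1 = none ∧
          (wk v (dT w, (wk v (1, 0) (p + 1)).1) q').1 ≠ (wk v (1, 0) (p + 1)).1
      · -- a target walk stops at some other coordinate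
        obtain ⟨m, w, q', hL, hs', hne⟩ := hT
        have hni : ¬ InfWalk v (dT w, (wk v (1, 0) (p + 1)).1) := fun h => h q' hs'
        obtain ⟨q, hq, hqlt⟩ := exists_first hni
        have hqe : wk v (dT w, (wk v (1, 0) (p + 1)).1) q =
            wk v (dT w, (wk v (1, 0) (p + 1)).1) q' := wk_stop_unique hq hs'
        rw [← hqe] at hne
        generalize he : (wk v (dT w, (wk v (1, 0) (p + 1)).1) q).1 = e at *
        refine ⟨max e (wk v (1, 0) (p + 1)).1 + 1,
          fun _ => max m (∑ i ∈ Finset.range (e + 1), x i), fun y n hF hk hN hlt => ?_⟩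
        obtain ⟨b, hb, hgb, hG, hcl⟩ := near_facts hx hF hk hN hv0 hstop hdom hvm hlt
          (Nat.lt_succ_of_le (le_max_right _ _))
        have h1 := hcl e (Nat.lt_succ_of_le (le_max_left _ _)) hq hne
          (fun t ht => (le_sum_range x ht).trans (le_max_right _ _))
        have hmb : m ≤ b := (le_max_left _ _).trans hgb
        have hLy : Lists y (dT vm) m w := by
          refine ⟨?_, ?_, hL.2.2⟩
          · rw [hR.wk_eq hN.1]; exact hN.1 _ _ hL.1
          · rw [hR.wk_eq hN.1]; exact hL.2.1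
        have h2 := hG.2.2.1 m w hmb hLy q
        rw [wk_ext hN.1 hqlt, he] at h2
        exact h1.2 (h2 h1.1)
      · -- all target walks are infinite or stop at the end
        push Not at hT
        refine ⟨(wk v (1, 0) (p + 1)).1 + 1, fun _ => 0, fun y n hF hk hN hlt => ?_⟩
        obtain ⟨b, hb, hgb, hG, -⟩ := near_facts hx hF hk hN hv0 hstop hdom hvm hlt
          (Nat.lt_succ_self _)
        obtain ⟨m, w, hmb, hLy, hnx⟩ := hG.2.2.2
        have hL : Lists v (dT vm) m w := by
          obtain ⟨h1, h2, h3⟩ := hLy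
          rw [hR.wk_eq hN.1] at h1 h2
          refine ⟨?_, h2, h3⟩
          obtain ⟨w', hw'⟩ := Option.ne_none_iff_exists'.1 (hR m)
          have h4 := hN.1 _ _ hw'
          rw [h1] at h4
          rw [hw', h4]
        have hPn : ∀ j, p + 1 < j → (wk v (1, 0) (p + 1)).1 < (P y j).1 := by
          intro j hj
          rw [← P_eq_of_ext hN.1 hdom le_rfl]
          rcases le_total j n with h | h
          · exact hF.lt hj h
          · have h1 : P y j = P y n := wk_stop hF.stop h
            rw [h1]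
            exact hF.lt hlt le_rfl
        by_cases hinf : InfWalk v (dT w, (wk v (1, 0) (p + 1)).1)
        · have h1 : InfWalk y (P y (p + 2)) := by
            rw [hnx]; exact hinf.ext hN.1
          have h2 : InfWalk y (1, 0) := infWalk_of_wk (n := p + 2) h1
          exact h2 n hF.stop
        · obtain ⟨q, hq, hqlt⟩ := exists_first hinf
          have h1 := hT m w q hL hq
          have h2 : P y (p + 2 + q) = wk v (dT w, (wk v (1, 0) (p + 1)).1) q := by
            have h3 : P y (p + 2 + q) = wk y (P y (p + 2)) q := wk_add _ _ _ _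
            rw [h3, hnx, wk_ext hN.1 hqlt]
          have h4 := hPn (p + 2 + q) (by omega)
          rw [h2, h1] at h4
          exact lt_irrefl _ h4
    · -- the registry stops
      obtain ⟨m, hm, hmlt⟩ := exists_first hR
      generalize he : (wk v (dT vm, 0) m).1 = e at *
      refine ⟨max e (wk v (1, 0) (p + 1)).1 + 1,
        fun _ => max m (∑ i ∈ Finset.range (e + 1), x i), fun y n hF hk hN hlt => ?_⟩
      obtain ⟨b, hb, hgb, hG, hcl⟩ := near_facts hx hF hk hN hv0 hstop hdom hvm hlt
        (Nat.lt_succ_of_le (le_max_right _ _))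
      have hmb : m ≤ b := (le_max_left _ _).trans hgb
      have h1 := hG.1 m hmb
      have h2 := hG.2.1 m hmb
      rw [wk_ext hN.1 hmlt, he] at h1 h2
      have h3 := hcl e (Nat.lt_succ_of_le (le_max_left _ _)) hm h1
        (fun t ht => (le_sum_range x ht).trans (le_max_right _ _))
      exact h3.2 (h2 h3.1)

/-- (A) in the product. -/
theorem closed_prod (x : ℕ → ℕ) (v : PF) : ∃ (k : ℕ) (g : ℕ → ℕ) (L : ℕ),
    ∀ y n, FF y n → (∀ t, t < k → xv y n t = x t) → Near v g y → lev y n ≤ L := by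
  by_cases hx : ∀ t c, x t = 2 * c + 1 → v t = some c
  swap
  · push Not at hx
    obtain ⟨t, c, hxt, hvt⟩ := hx
    refine ⟨t + 1, fun _ => c + 1, 0, fun y n _ hk hN => ?_⟩
    exfalso
    have h1 := hk t (Nat.lt_succ_self t)
    rw [hxt] at h1
    have h2 := eq_some_of_xv h1
    cases hv : v t with
    | none =>
      have h3 : c + 1 ≤ c := hN.2 t c hv h2
      omega
    | some w =>
      have h3 := hN.1 t w hv
      rw [h2] at h3
      exact hvt (by rw [hv, h3])
  by_cases hinf : InfWalk v (1, 0)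
  · refine ⟨0, fun _ => 0, 0, fun y n hF _ hN => ?_⟩
    rcases hF with ⟨rfl, _, _⟩ | hF
    · simp [lev]
    · exact absurd hF.stop (hinf.ext hN.1 n)
  obtain ⟨q, hq, hqlt⟩ := exists_first hinf
  have hPv : ∀ {y : PF}, Ext v y → ∀ j, j ≤ q → P y j = wk v (1, 0) j :=
    fun hy j hj => P_eq_of_ext hy hqlt hj
  have hle : ∀ {y : PF} {n : ℕ}, Ext v y → IsF y n → q ≤ n := by
    intro y n hy hF
    by_contra hc
    push Not at hc
    have h1 := hy.ne_none (hqlt n hc)
    rw [← hPv hy n hc.le] at h1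
    exact h1 hF.stop
  by_cases hv0 : v 0 = none
  · refine ⟨(wk v (1, 0) q).1 + 1,
      fun _ => ∑ i ∈ Finset.range ((wk v (1, 0) q).1 + 1), x i, 0, fun y n hF hk hN => ?_⟩
    exfalso
    obtain ⟨h1, h2, h3⟩ : IsGap y n (wk v (1, 0) q).1 ∧ 0 < (wk v (1, 0) q).1 ∧ y 0 ≠ none := by
      rcases hF with ⟨rfl, hy0, hyinf⟩ | hF
      · exfalso
        have h1 : y (wk v (1, 0) q).1 ≠ none := by
          have h2 := hyinf q
          rwa [show wk y (1, 0) q = wk v (1, 0) q from hPv hN.1 q le_rfl] at h2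
        rcases sharp hk hx (Nat.lt_succ_self _) hq h1 with h2 | ⟨k', hk', _⟩
        · rw [h2] at h1; exact h1 hy0
        · omega
      · refine ⟨?_, ?_, hF.zero⟩
        · rcases (hle hN.1 hF).eq_or_lt with h | h
          · have h1 := isGap_end hF
            subst h
            rwa [hPv hN.1 q le_rfl] at h1
          · refine sharp hk hx (Nat.lt_succ_self _) hq ?_
            have h1 := hF.dom h
            rwa [hPv hN.1 q le_rfl] at h1
        · rw [← hPv hN.1 q le_rfl]
          rcases Nat.eq_zero_or_pos q with h | h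
          · rw [h, P_zero]; exact Nat.one_pos
          · exact lt_of_le_of_lt (Nat.zero_le _) (hF.lt h (hle hN.1 hF))
    exact no_gap hk hN (Or.inl rfl) hv0 h3 h1 h2 (Nat.lt_succ_self _)
      (fun t ht => le_sum_range x ht)
  · obtain ⟨k, g, hkg⟩ := near_stop x v hx hv0 hq hqlt
    refine ⟨k, g, (wk v (1, 0) q).1, fun y n hF hk hN => ?_⟩
    rcases hF with ⟨rfl, _, _⟩ | hF
    · simp [lev]
    · have h1 := hkg y n hF hk hN
      have h2 : n = q := le_antisymm (not_lt.1 h1) (hle hN.1 hF)
      unfold lev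
      rw [if_neg (by have := hF.pos; omega), h2, hPv hN.1 q le_rfl]

/-- (A) in the open subspace. -/
theorem closed_sub {y₀ y : PF} {m n : ℕ} (h₀ : FF y₀ m) (h : FF y n) (hy : Ext y₀ y) :
    lev y n = lev y₀ m := by
  rcases h₀ with ⟨rfl, _, h0⟩ | h₀
  · rcases h with ⟨rfl, _, _⟩ | h
    · simp [lev]
    · exact absurd h.stop (h0.ext hy n)
  · rcases h with ⟨rfl, h0, _⟩ | h
    · exact absurd h0 (hy.ne_none h₀.zero)
    · have hP : ∀ j, j ≤ m → P y j = P y₀ j := fun j hj =>
        wk_ext hy fun k hk => h₀.dom (lt_of_lt_of_le hk hj)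
      have hmn : m ≤ n := by
        by_contra hc
        push Not at hc
        have h1 := hy.ne_none (h₀.dom hc)
        rw [← hP n hc.le] at h1
        exact h1 h.stop
      rcases hmn.eq_or_lt with rfl | hlt
      · unfold lev
        rw [hP m le_rfl]
      · exfalso
        obtain ⟨p, rfl⟩ : ∃ p, m = p + 1 := ⟨m - 1, (Nat.sub_add_cancel h₀.pos).symm⟩
        obtain ⟨vm, hvm⟩ := Option.ne_none_iff_exists'.1 (h₀.dom (Nat.lt_succ_self p))
        obtain ⟨b, hb⟩ := Option.ne_none_iff_exists'.1 (h.dom hlt)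
        have hmk : Mk y (P y (p + 1)).1 := by
          obtain ⟨d, w, h1, h2, h3, h4⟩ := h₀.mark
          rw [hP _ le_rfl]
          exact ⟨d, w, h1, h2, hy _ _ h3, h4⟩
        have hG := h.gap p vm b hlt hmk
          (by rw [hP _ (Nat.le_succ p)]; exact hy _ _ hvm) hb
        obtain ⟨m', w, _, hLy, hnx⟩ := hG.2.2.2
        obtain ⟨hR, hT⟩ := h₀.reg p vm rfl hvm
        have hL : Lists y₀ (dT vm) m' w := by
          obtain ⟨h1, h2, h3⟩ := hLy
          rw [hR.wk_eq hy] at h1 h2
          refine ⟨?_, h2, h3⟩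
          obtain ⟨w', hw'⟩ := Option.ne_none_iff_exists'.1 (hR m')
          have h4 := hy _ _ hw'
          rw [h1] at h4
          rw [hw', h4]
        have h1 := (hT m' w hL).ext hy
        rw [← hP _ le_rfl, ← hnx] at h1
        have h2 : InfWalk y (1, 0) := infWalk_of_wk (n := p + 2) h1
        exact h2 n h.stop

end Pool.Agent.Helper12.BX
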